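import Mathlib

namespace Pool.Agent.Results.MP_5f67f4_co.Box

open Finset

/-- the words obtained from a word of `F` by deleting one letter -/
def shadow {r n : ℕ} (F : Finset (Fin (n + 1) → Fin r)) : Finset (Fin n → Fin r) :=
  F.biUnion fun w => univ.image fun i => Fin.removeNth i w

/-- the letter counts, largest letter first -/
def sig {r n : ℕ} (w : Fin n → Fin r) : List ℕ :=
  List.ofFn fun x : Fin r => #{i | w i = x.rev}

theorem result : ∃ (r n : ℕ) (s : List ℕ), 2 ≤ r ∧ s.length = r ∧ s.sum = n + 1 ∧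
    ∃ G : Finset (Fin (n + 1) → Fin r),
      #G = #{w : Fin (n + 1) → Fin r | sig w = s ∨ List.Lex (· < ·) (sig w) s} ∧
      #(shadow G) < #(shadow {w : Fin (n + 1) → Fin r | sig w = s ∨ List.Lex (· < ·) (sig w) s}) :=
  ⟨4, 2, [1, 0, 1, 1], by norm_num, rfl, rfl, univ.filter fun w => w 1 ≠ 3 ∧ w 2 ≠ 3, by decide +kernel,
    by decide +kernel⟩

end Pool.Agent.Results.MP_5f67f4_co.Box
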